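import Pool.Agent.GLFour.Zlim

/-! # ZUPPER. `Σ_{p ∈ T} aF p * p^(-s) ≤ log (zt F s) + C`.
* For a finite set `𝒮` of (nonzero) prime ideals: `∏_{𝔭 ∈ 𝒮} (1 + N𝔭^(-s)) = Σ_{U ⊆ 𝒮} N(∏ U)^(-s) ≤ zt F s`
  (`Finset.prod_one_add`; `U ↦ ∏ U` is injective on sets of primes; ideals of norm `n` are counted by `aF n`;
  as in `exists_bound` of `H7/Abc/Zeta.lean`).
* `log (1+x) ≥ x - x^2` for `0 ≤ x ≤ 1`, and `Σ_𝔭 N𝔭^(-2s) ≤ zt F 2 `(`N𝔭^(-2s) ≤ N𝔭^(-2)`).
* ideals of prime norm are prime; take `𝒮` = the ideals of norm in `T`. -/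

open Finset NumberField

namespace Pool.Agent.GLFour

/-- the sum of `N(I)^(-s)` over a finite set of ideals is at most `zt F s` -/
theorem Zupper_ideals (F : Type*) [Field F] [NumberField F] {s : ℝ} (hs : 1 < s)
    (G : Finset (Ideal (𝓞 F))) :
    ∑ I ∈ G, (Ideal.absNorm I : ℝ) ^ (-s) ≤ zt F s := by
  classical
  have hmaps : ∀ v ∈ G, Ideal.absNorm v ∈ G.image (fun v => Ideal.absNorm v) :=
    fun v hv => Finset.mem_image_of_mem _ hv
  rw [← Finset.sum_fiberwise_of_maps_to hmaps]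
  refine le_trans ?_ ((zeta_summable F hs).sum_le_tsum
    (G.image (fun v => Ideal.absNorm v)) (fun n _ => by unfold aF; positivity))
  refine Finset.sum_le_sum fun n hn => ?_
  have h1 : ∑ v ∈ G with Ideal.absNorm v = n, (Ideal.absNorm v : ℝ) ^ (-s) =
      ∑ v ∈ G with Ideal.absNorm v = n, (n : ℝ) ^ (-s) := by
    refine Finset.sum_congr rfl fun v hv => ?_
    rw [(Finset.mem_filter.1 hv).2]
  rw [h1, Finset.sum_const, nsmul_eq_mul]
  refine mul_le_mul_of_nonneg_right ?_ (by positivity)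
  have hfin : Finite {I : Ideal (𝓞 F) // Ideal.absNorm I = n} :=
    Ideal.finite_setOfPred_absNorm_eq n
  have h2 : Nat.card {v // v ∈ G.filter (fun v => Ideal.absNorm v = n)} ≤
      Nat.card {I : Ideal (𝓞 F) // Ideal.absNorm I = n} := by
    refine Nat.card_le_card_of_injective (fun v => ⟨v.1, (Finset.mem_filter.1 v.2).2⟩) ?_
    intro a b hab
    exact Subtype.ext (Subtype.mk_eq_mk.1 hab)
  rw [Nat.card_eq_fintype_card, Fintype.card_coe] at h2
  unfold aF
  exact_mod_cast h2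

/-- the product of a finite set of primes determines the set -/
theorem Zupper_inj (F : Type*) [Field F] [NumberField F] (U V : Finset (Ideal (𝓞 F)))
    (hU : ∀ p ∈ U, Prime p) (hV : ∀ p ∈ V, Prime p) (h : ∏ p ∈ U, p = ∏ p ∈ V, p) : U ⊆ V := by
  intro p hp
  have h1 : p ∣ ∏ q ∈ V, q := h ▸ Finset.dvd_prod_of_mem _ hp
  obtain ⟨q, hq, hpq⟩ := ((hU p hp).dvd_finsetProd_iff _).1 h1
  have h2 : p = q := associated_iff_eq.1 ((hU p hp).associated_of_dvd (hV q hq) hpq)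
  rw [h2]; exact hq

theorem Zupper_primes (F : Type*) [Field F] [NumberField F] {s : ℝ} (hs : 1 < s)
    (S : Finset (Ideal (𝓞 F))) (hS : ∀ p ∈ S, Prime p) :
    ∏ p ∈ S, (1 + (Ideal.absNorm p : ℝ) ^ (-s)) ≤ zt F s := by
  classical
  rw [Finset.prod_one_add]
  have h1 : ∀ U ∈ S.powerset, ∏ p ∈ U, (Ideal.absNorm p : ℝ) ^ (-s) =
      (Ideal.absNorm (∏ p ∈ U, p) : ℝ) ^ (-s) := by
    intro U _
    rw [map_prod, Nat.cast_prod]
    exact (Real.finsetProd_rpow U (fun p => (Ideal.absNorm p : ℝ))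
      (fun p _ => Nat.cast_nonneg _) (-s))
  rw [Finset.sum_congr rfl h1]
  have hinj : Set.InjOn (fun U : Finset (Ideal (𝓞 F)) => ∏ p ∈ U, p) (S.powerset : Set _) := by
    intro U hU V hV h
    rw [Finset.mem_coe, Finset.mem_powerset] at hU hV
    exact Finset.Subset.antisymm
      (Zupper_inj F U V (fun p hp => hS p (hU hp)) (fun p hp => hS p (hV hp)) h)
      (Zupper_inj F V U (fun p hp => hS p (hV hp)) (fun p hp => hS p (hU hp)) h.symm)
  have h2 := Zupper_ideals F hs (S.powerset.image (fun U : Finset (Ideal (𝓞 F)) => ∏ p ∈ U, p))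
  rwa [Finset.sum_image hinj] at h2

theorem Zupper_log {x : ℝ} (hx : 0 ≤ x) : x - x^2 ≤ Real.log (1 + x) := by
  have h := Real.le_log_one_add_of_nonneg hx
  refine le_trans ?_ h
  rw [le_div_iff₀ (by linarith)]
  nlinarith [mul_nonneg hx hx, mul_nonneg hx (mul_nonneg hx hx)]

theorem zeta_upper (F : Type*) [Field F] [NumberField F] :
    ∃ C : ℝ, ∀ s : ℝ, 1 < s → ∀ T : Finset ℕ, (∀ p ∈ T, p.Prime) →
      ∑ p ∈ T, aF F p * (p : ℝ) ^ (-s) ≤ Real.log (zt F s) + C := by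
  classical
  refine ⟨zt F 2, fun s hs T hT => ?_⟩
  set S : Finset (Ideal (𝓞 F)) :=
    T.biUnion (fun p => (Ideal.finite_setOfPred_absNorm_eq (S := 𝓞 F) p).toFinset) with hSdef
  have hmem : ∀ I, I ∈ S ↔ Ideal.absNorm I ∈ T := by
    intro I
    simp only [hSdef, Finset.mem_biUnion, Set.Finite.mem_toFinset, Set.mem_ofPred_eq]
    constructor
    · rintro ⟨p, hp, h⟩; rw [h]; exact hp
    · intro h; exact ⟨_, h, rfl⟩
  have hprime : ∀ I ∈ S, Prime I := by
    intro I hI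
    have h1 := hT _ ((hmem I).1 hI)
    have h2 : I.IsPrime := Ideal.isPrime_of_irreducible_absNorm h1
    refine Ideal.prime_of_isPrime ?_ h2
    intro h0
    rw [h0, Ideal.absNorm_bot] at h1
    exact Nat.not_prime_zero h1
  have h1 : ∑ I ∈ S, (Ideal.absNorm I : ℝ) ^ (-s) = ∑ p ∈ T, aF F p * (p : ℝ) ^ (-s) := by
    rw [hSdef, Finset.sum_biUnion]
    · refine Finset.sum_congr rfl fun p hp => ?_
      have h2 : ∀ I ∈ (Ideal.finite_setOfPred_absNorm_eq (S := 𝓞 F) p).toFinset,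
          (Ideal.absNorm I : ℝ) ^ (-s) = (p : ℝ) ^ (-s) := by
        intro I hI
        rw [Set.Finite.mem_toFinset, Set.mem_ofPred_eq] at hI
        rw [hI]
      rw [Finset.sum_congr rfl h2, Finset.sum_const, nsmul_eq_mul]
      congr 1
      unfold aF
      rw [← Set.ncard_eq_toFinset_card _ (Ideal.finite_setOfPred_absNorm_eq (S := 𝓞 F) p)]
      rfl
    · intro p hp q hq hpq
      rw [Function.onFun, Finset.disjoint_left]
      intro I hI hI'
      rw [Set.Finite.mem_toFinset, Set.mem_ofPred_eq] at hI hI'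
      exact hpq (hI.symm.trans hI')
  rw [← h1]
  have hpos : ∀ I ∈ S, 1 ≤ Ideal.absNorm I := fun I hI =>
    (hT _ ((hmem I).1 hI)).one_lt.le
  have h3 : ∑ I ∈ S, Real.log (1 + (Ideal.absNorm I : ℝ) ^ (-s)) ≤ Real.log (zt F s) := by
    rw [← Real.log_prod]
    · refine Real.log_le_log ?_ (Zupper_primes F hs S hprime)
      exact Finset.prod_pos fun I hI => by positivity
    · intro I hI
      positivity
  have h4 : ∑ I ∈ S, ((Ideal.absNorm I : ℝ) ^ (-s))^2 ≤ zt F 2 := by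
    refine le_trans (Finset.sum_le_sum fun I hI => ?_) (Zupper_ideals F (by norm_num) S)
    have h5 : (1:ℝ) ≤ Ideal.absNorm I := by exact_mod_cast hpos I hI
    rw [← Real.rpow_natCast, ← Real.rpow_mul (by positivity)]
    refine Real.rpow_le_rpow_of_exponent_le h5 ?_
    push_cast
    linarith
  have h5 : ∑ I ∈ S, ((Ideal.absNorm I : ℝ) ^ (-s) - ((Ideal.absNorm I : ℝ) ^ (-s))^2) ≤
      ∑ I ∈ S, Real.log (1 + (Ideal.absNorm I : ℝ) ^ (-s)) :=
    Finset.sum_le_sum fun I hI => Zupper_log (by positivity)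
  rw [Finset.sum_sub_distrib] at h5
  linarith

end Pool.Agent.GLFour
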