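import Mathlib

/-! # Dedekind zeta function on the real half line: definitions (after squad ALG) -/

namespace Pool.Agent.GLFour

open NumberField in
/-- the number of ideals of norm `n` -/
noncomputable def aF (F : Type*) [Field F] [NumberField F] (n : ℕ) : ℝ :=
  (Nat.card {I : Ideal (𝓞 F) // Ideal.absNorm I = n} : ℝ)

open NumberField in
/-- the Dedekind zeta function on the real half line `s > 1` -/
noncomputable def zt (F : Type*) [Field F] [NumberField F] (s : ℝ) : ℝ :=
  ∑' n : ℕ, aF F n * (n : ℝ) ^ (-s)

end Pool.Agent.GLFour
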